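import Pool.Agent.H1.LP.Targets

/-!
# Counting matrices killed by a vector (helper29): module COL of MP_c62aed_lc
-/

namespace Pool.Agent.H29.LP

open Finset Pool.Agent.H1.LP

/-- one nonzero linear form kills at most a `1/p` fraction. -/
theorem form_card (p R : ℕ) [Fact p.Prime] (c : Fin R → ZMod p) (i0 : Fin R) (h0 : c i0 ≠ 0) :
    (univ.filter (fun b : Fin R → ZMod p => ∑ i, c i * b i = 0)).card * p ≤ p ^ R := by
  have h1 : ((univ.filter (fun b : Fin R → ZMod p => ∑ i, c i * b i = 0)) ×ˢ
      (univ : Finset (ZMod p))).card ≤ (univ : Finset (Fin R → ZMod p)).card := by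
    apply Finset.card_le_card_of_injOn
      (fun q : (Fin R → ZMod p) × ZMod p => q.1 + Pi.single i0 q.2)
    · intro q _
      simp
    · rintro ⟨b, u⟩ hq ⟨b', u'⟩ hq' he
      simp only [Finset.coe_product, Set.mem_prod, Finset.mem_coe, Finset.mem_filter,
        Finset.mem_univ, true_and, and_true] at hq hq'
      simp only at he
      have h2 : ∀ (b : Fin R → ZMod p) (u : ZMod p), ∑ i, c i * b i = 0 →
          ∑ i, c i * (b + Pi.single i0 u : Fin R → ZMod p) i = c i0 * u := by
        intro b u hb
        have : ∀ i, c i * (b + Pi.single i0 u : Fin R → ZMod p) i =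
            c i * b i + c i * (Pi.single i0 u : Fin R → ZMod p) i := by
          intro i
          rw [Pi.add_apply]; ring
        simp_rw [this]
        rw [Finset.sum_add_distrib, hb, zero_add]
        rw [Finset.sum_eq_single i0]
        · simp
        · intro i _ hi
          rw [Pi.single_eq_of_ne hi, mul_zero]
        · simp
      have h3 := h2 b u hq
      have h4 := h2 b' u' hq'
      rw [he] at h3
      have h5 : u = u' := by
        have := h3.symm.trans h4
        exact mul_left_cancel₀ h0 this
      subst h5
      have h6 : b = b' := by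
        exact add_right_cancel he
      rw [h6]
  rw [Finset.card_product] at h1
  simpa [ZMod.card] using h1

theorem col : S_COL := by
  intro p B R _ T c U v hv
  set W := U.filter (fun j => ∃ i, c i ≠ 0 ∧ j ∈ T i) with hW
  have hp1 : 1 ≤ p := (Fact.out : p.Prime).one_lt.le
  -- the set is a product
  have h1 : (univ.filter (fun a : Fin B → Fin R → ZMod p =>
      ∀ j ∈ U, ∑ i, c i * (if j ∈ T i then a j i else 0) = 0)) =
      Fintype.piFinset (fun j : Fin B => univ.filter (fun b : Fin R → ZMod p =>
        j ∈ U → ∑ i, c i * (if j ∈ T i then b i else 0) = 0)) := by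
    ext a
    simp [Fintype.mem_piFinset]
  rw [h1, Fintype.card_piFinset]
  have h2 : ∀ j : Fin B, (univ.filter (fun b : Fin R → ZMod p =>
        j ∈ U → ∑ i, c i * (if j ∈ T i then b i else 0) = 0)).card *
        (if j ∈ W then p else 1) ≤ p ^ R := by
    intro j
    by_cases hj : j ∈ W
    · rw [if_pos hj]
      rw [hW, Finset.mem_filter] at hj
      obtain ⟨hjU, i0, hi0, hjT⟩ := hj
      have h3 := form_card p R (fun i => if j ∈ T i then c i else 0) i0 (by
        simp only [if_pos hjT]; exact hi0)
      refine le_trans (Nat.mul_le_mul_right p (Finset.card_le_card ?_)) h3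
      intro b hb
      rw [Finset.mem_filter] at hb ⊢
      refine ⟨Finset.mem_univ _, ?_⟩
      refine Eq.trans ?_ (hb.2 hjU)
      apply Finset.sum_congr rfl
      intro i _
      by_cases h : j ∈ T i
      · simp [h]
      · simp [h]
    · rw [if_neg hj, mul_one]
      refine (Finset.card_le_univ _).trans ?_
      simp [ZMod.card]
  have h4 : p ^ v ≤ ∏ j : Fin B, (if j ∈ W then p else 1) := by
    rw [Finset.prod_ite]
    simp only [Finset.prod_const, one_pow, mul_one]
    apply Nat.pow_le_pow_right hp1
    refine hv.trans (Finset.card_le_card ?_)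
    intro j hj
    simpa using hj
  calc (∏ j : Fin B, (univ.filter (fun b : Fin R → ZMod p =>
        j ∈ U → ∑ i, c i * (if j ∈ T i then b i else 0) = 0)).card) * p ^ v
      ≤ (∏ j : Fin B, (univ.filter (fun b : Fin R → ZMod p =>
        j ∈ U → ∑ i, c i * (if j ∈ T i then b i else 0) = 0)).card) *
          ∏ j : Fin B, (if j ∈ W then p else 1) := Nat.mul_le_mul_left _ h4
    _ = ∏ j : Fin B, ((univ.filter (fun b : Fin R → ZMod p =>
        j ∈ U → ∑ i, c i * (if j ∈ T i then b i else 0) = 0)).card *
          (if j ∈ W then p else 1)) := by rw [Finset.prod_mul_distrib]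
    _ ≤ ∏ _j : Fin B, p ^ R := Finset.prod_le_prod' (fun j _ => h2 j)
    _ = p ^ (R * B) := by
        rw [Finset.prod_const, Finset.card_univ, Fintype.card_fin, ← pow_mul]

end Pool.Agent.H29.LP
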