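import Pool.Agent.H1.LP.Targets

/-!
# LP duality (helper29): modules FARKAS, LPD, LPC of MP_c62aed_lc
-/

namespace Pool.Agent.H29.LP

open Finset Pool.Agent.H1.LP

theorem farkas_aux (E : Type) [AddCommGroup E] [Module ℝ E] (r : ℕ) :
    ∀ (a : Fin r → (E →ₗ[ℝ] ℝ)) (f : E →ₗ[ℝ] ℝ),
    (∀ y, (∀ i, a i y ≤ 0) → f y ≤ 0) →
    ∃ lam : Fin r → ℝ, (∀ i, 0 ≤ lam i) ∧ ∀ y, f y = ∑ i, lam i * a i y := by
  induction r with
  | zero =>
    intro a f h
    refine ⟨fun _ => 0, fun _ => le_refl _, fun y => ?_⟩
    have h1 := h y (fun i => i.elim0)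
    have h2 := h (-y) (fun i => i.elim0)
    rw [map_neg] at h2
    simp
    linarith
  | succ r ih =>
    intro a f h
    by_cases hc : ∀ y, (∀ i : Fin r, a i.castSucc y ≤ 0) → f y ≤ 0
    · obtain ⟨lam, hl, hf⟩ := ih (fun i => a i.castSucc) f hc
      refine ⟨Fin.snoc lam 0, ?_, ?_⟩
      · intro i
        refine Fin.lastCases ?_ (fun j => ?_) i
        · simp
        · simpa using hl j
      · intro y
        rw [Fin.sum_univ_castSucc]
        simp [hf y]
    · push Not at hc
      obtain ⟨y0, hy0, hf0⟩ := hc
      have hl0 : 0 < a (Fin.last r) y0 := by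
        by_contra hcon
        push Not at hcon
        refine absurd (h y0 (fun i => ?_)) (not_le.mpr hf0)
        refine Fin.lastCases hcon (fun j => hy0 j) i
      -- scaled point
      set c : ℝ := a (Fin.last r) y0 with hcdef
      set y1 : E := c⁻¹ • y0 with hy1
      have ha1 : a (Fin.last r) y1 = 1 := by
        rw [hy1, map_smul, smul_eq_mul, ← hcdef]
        field_simp
      have hay1 : ∀ i : Fin r, a i.castSucc y1 ≤ 0 := by
        intro i
        rw [hy1, map_smul, smul_eq_mul]
        exact mul_nonpos_of_nonneg_of_nonpos (by positivity) (hy0 i)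
      have hf1 : 0 < f y1 := by
        rw [hy1, map_smul, smul_eq_mul]
        positivity
      obtain ⟨lam, hl, hf⟩ := ih
        (fun i => a i.castSucc - (a i.castSucc y1) • a (Fin.last r))
        (f - (f y1) • a (Fin.last r)) (by
          intro y hy
          have h1 : f (y - (a (Fin.last r) y) • y1) ≤ 0 := by
            apply h
            intro i
            refine Fin.lastCases ?_ (fun j => ?_) i
            · rw [map_sub, map_smul, ha1]
              simp
            · have := hy j
              simp only [LinearMap.sub_apply, LinearMap.smul_apply, smul_eq_mul] at this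
              rw [map_sub, map_smul, smul_eq_mul]
              linarith
          rw [map_sub, map_smul, smul_eq_mul] at h1
          simp only [LinearMap.sub_apply, LinearMap.smul_apply, smul_eq_mul]
          linarith)
      refine ⟨Fin.snoc lam (f y1 - ∑ i, lam i * a i.castSucc y1), ?_, ?_⟩
      · intro i
        refine Fin.lastCases ?_ (fun j => ?_) i
        · simp only [Fin.snoc_last]
          have : ∑ i, lam i * a i.castSucc y1 ≤ 0 := by
            apply Finset.sum_nonpos
            intro i _
            exact mul_nonpos_of_nonneg_of_nonpos (hl i) (hay1 i)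
          linarith
        · simpa using hl j
      · intro y
        have h2 := hf y
        simp only [LinearMap.sub_apply, LinearMap.smul_apply, smul_eq_mul] at h2
        rw [Fin.sum_univ_castSucc]
        simp only [Fin.snoc_castSucc, Fin.snoc_last]
        have h3 : ∑ i, lam i * (a i.castSucc y - a i.castSucc y1 * a (Fin.last r) y) =
            ∑ i, lam i * a i.castSucc y -
              (∑ i, lam i * a i.castSucc y1) * a (Fin.last r) y := by
          rw [Finset.sum_mul, ← Finset.sum_sub_distrib]
          apply Finset.sum_congr rfl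
          intro i _
          ring
        rw [h3] at h2
        linarith

theorem farkas : S_FARKAS := by
  intro E _ _ r a f h
  exact farkas_aux E r a f h

/-- the functional `(y, t) ↦ ∑ w k * y k + c * t`. -/
noncomputable def lin (D : ℕ) (w : Fin D → ℝ) (c : ℝ) : ((Fin D → ℝ) × ℝ) →ₗ[ℝ] ℝ :=
  (∑ k, w k • (LinearMap.proj k : (Fin D → ℝ) →ₗ[ℝ] ℝ)).comp (LinearMap.fst ℝ _ _) +
    c • LinearMap.snd ℝ _ _

theorem lin_apply (D : ℕ) (w : Fin D → ℝ) (c : ℝ) (y : Fin D → ℝ) (t : ℝ) :
    lin D w c (y, t) = ∑ k, w k * y k + c * t := by
  simp [lin]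

theorem lpd (hF : S_FARKAS) : S_LPD := by
  intro D r A b w w0 hne hpos
  obtain ⟨ys, hys⟩ := hne
  obtain ⟨lam, hl, hf⟩ := hF ((Fin D → ℝ) × ℝ) (r + 1)
    (Fin.snoc (fun i => lin D (A i) (-(b i))) (lin D 0 (-1))) (- lin D w w0) (by
      rintro ⟨y, t⟩ h
      have ht : 0 ≤ t := by
        have := h (Fin.last r)
        rw [Fin.snoc_last, lin_apply] at this
        simp at this
        exact this
      have hi : ∀ i, ∑ k, A i k * y k ≤ b i * t := by
        intro i
        have := h i.castSucc
        rw [Fin.snoc_castSucc, lin_apply] at this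
        linarith
      rw [LinearMap.neg_apply, lin_apply]
      rcases ht.eq_or_lt with h0 | hpos'
      · -- t = 0
        subst h0
        have hi0 : ∀ i, ∑ k, A i k * y k ≤ 0 := by
          intro i
          simpa using hi i
        by_contra hcon
        push Not at hcon
        have hneg : ∑ k, w k * y k < 0 := by linarith
        set q := ∑ k, w k * y k with hq
        set v := ∑ k, w k * ys k + w0 with hv
        have hv0 : 0 ≤ v := hpos ys hys
        set s : ℝ := (v + 1) / (-q) with hs
        have hs0 : 0 ≤ s := by
          apply div_nonneg <;> linarith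
        have h1 := hpos (fun k => ys k + s * y k) (by
          intro i
          have h2 : ∑ k, A i k * (ys k + s * y k) =
              ∑ k, A i k * ys k + s * ∑ k, A i k * y k := by
            rw [Finset.mul_sum, ← Finset.sum_add_distrib]
            apply Finset.sum_congr rfl
            intro k _
            ring
          rw [h2]
          have h3 := hys i
          have h4 : s * ∑ k, A i k * y k ≤ 0 :=
            mul_nonpos_of_nonneg_of_nonpos hs0 (hi0 i)
          linarith)
        have h5 : ∑ k, w k * (ys k + s * y k) = ∑ k, w k * ys k + s * q := by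
          rw [hq, Finset.mul_sum, ← Finset.sum_add_distrib]
          apply Finset.sum_congr rfl
          intro k _
          ring
        rw [h5] at h1
        have h6 : s * q = -(v + 1) := by
          rw [hs]
          have : q ≠ 0 := by linarith
          field_simp
        rw [h6] at h1
        linarith
      · have h1 := hpos (fun k => y k / t) (by
          intro i
          have h2 : ∑ k, A i k * (y k / t) = (∑ k, A i k * y k) / t := by
            rw [Finset.sum_div]
            apply Finset.sum_congr rfl
            intro k _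
            ring
          rw [h2, div_le_iff₀ hpos']
          exact hi i)
        have h5 : ∑ k, w k * (y k / t) = (∑ k, w k * y k) / t := by
          rw [Finset.sum_div]
          apply Finset.sum_congr rfl
          intro k _
          ring
        rw [h5] at h1
        have h6 : ((∑ k, w k * y k) / t + w0) * t = ∑ k, w k * y k + w0 * t := by
          field_simp
        have h7 : 0 ≤ ((∑ k, w k * y k) / t + w0) * t := mul_nonneg h1 hpos'.le
        linarith)
  refine ⟨fun i => lam i.castSucc, lam (Fin.last r), hl _, fun i => hl _, fun y => ?_⟩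
  have h1 := hf (y, 1)
  rw [Fin.sum_univ_castSucc] at h1
  simp only [Fin.snoc_castSucc, Fin.snoc_last, LinearMap.neg_apply, lin_apply] at h1
  have h2 : ∑ i : Fin r, lam i.castSucc * (b i - ∑ k, A i k * y k) =
      - ∑ i : Fin r, lam i.castSucc * (∑ k, A i k * y k + -(b i) * 1) := by
    rw [← Finset.sum_neg_distrib]
    apply Finset.sum_congr rfl
    intro i _
    ring
  rw [h2]
  simp at h1 ⊢
  linarith

theorem lpc (hL : S_LPD) : S_LPC := by
  intro n m P phi de hne href
  obtain ⟨x0, hx0⟩ := hne
  have key : ∀ y : Fin P.dim → ℝ, ∑ i, P.loss (phi i) y - de =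
      ∑ k, (∑ i, P.w (phi i) k) * y k + (∑ i, P.w0 (phi i) - de) := by
    intro y
    have : ∑ k, (∑ i, P.w (phi i) k) * y k = ∑ i, ∑ k, P.w (phi i) k * y k := by
      rw [Finset.sum_comm]
      apply Finset.sum_congr rfl
      intro k _
      rw [Finset.sum_mul]
    rw [this]
    unfold Relax.loss
    rw [Finset.sum_add_distrib]
    ring
  obtain ⟨lam, lam0, h0, h1, h2⟩ := hL P.dim P.size P.A P.b
    (fun k => ∑ i, P.w (phi i) k) (∑ i, P.w0 (phi i) - de)
    ⟨P.pt x0, P.feas x0 hx0⟩ (by
      intro y hy
      have := href y hy
      rw [← key y]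
      linarith)
  refine ⟨lam, lam0, h0, h1, fun x _ => ?_⟩
  rw [key]
  exact h2 (P.pt x)

end Pool.Agent.H29.LP
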