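import Pool.Agent.H1.LP.Targets

/-!
# Counting short vectors (helper29): modules GEN (as a lemma) and NUMC of MP_c62aed_lc
-/

namespace Pool.Agent.H29.LP

open Finset Pool.Agent.H1.LP

theorem gen_aux (p B : ℕ) [NeZero p] (y : ℝ) :
    ∑ l : Fin B → ZMod p, y ^ (supp l).card = (1 + ((p : ℝ) - 1) * y) ^ B := by
  have h1 : ∀ l : Fin B → ZMod p, y ^ (supp l).card = ∏ j, (if l j ≠ 0 then y else 1) := by
    intro l
    unfold supp
    rw [Finset.prod_ite]
    simp
  simp_rw [h1]
  rw [← Fintype.prod_sum (fun (_ : Fin B) (a : ZMod p) => if a ≠ 0 then y else (1 : ℝ))]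
  rw [Finset.prod_const, Finset.card_univ, Fintype.card_fin]
  congr 1
  rw [Finset.sum_ite]
  have h2 : (univ.filter (fun a : ZMod p => ¬ (a ≠ 0))) = {0} := by
    ext a; simp
  have h3 : (univ.filter (fun a : ZMod p => a ≠ 0)) = univ.erase 0 := by
    ext a; simp
  rw [h2, h3]
  simp only [Finset.sum_const, nsmul_eq_mul, Finset.card_erase_of_mem (Finset.mem_univ _),
    Finset.card_univ, ZMod.card, Finset.card_singleton]
  have hp : 1 ≤ p := NeZero.one_le
  push_cast [Nat.cast_sub hp]
  ring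

theorem gen : S_GEN := by
  intro p B _ y
  exact gen_aux p B y

theorem numc : S_NUMC := by
  intro E B p t _ hE hp
  set x : ℝ := 1 / (4 * E * p) with hx
  have hEr : (1 : ℝ) ≤ E := by exact_mod_cast hE
  have hpr : (2 : ℝ) ≤ p := by exact_mod_cast hp
  have hx0 : 0 < x := by rw [hx]; positivity
  have hx1 : x ≤ 1 := by
    rw [hx, div_le_one (by positivity)]
    nlinarith
  set F := univ.filter (fun c : Fin (4 * E * B) → ZMod p => (supp c).card ≤ 2 * t) with hF
  have h1 : (F.card : ℝ) * x ^ (2 * t) ≤ (1 + ((p : ℝ) - 1) * x) ^ (4 * E * B) := by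
    rw [← gen_aux p (4 * E * B) x]
    calc (F.card : ℝ) * x ^ (2 * t) = ∑ c ∈ F, x ^ (2 * t) := by
          rw [Finset.sum_const, nsmul_eq_mul]
      _ ≤ ∑ c ∈ F, x ^ (supp c).card := by
          apply Finset.sum_le_sum
          intro c hc
          rw [hF, Finset.mem_filter] at hc
          exact pow_le_pow_of_le_one hx0.le hx1 hc.2
      _ ≤ ∑ c : Fin (4 * E * B) → ZMod p, x ^ (supp c).card := by
          apply Finset.sum_le_sum_of_subset_of_nonneg (Finset.filter_subset _ _)
          intro c _ _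
          positivity
  have h2 : (1 + ((p : ℝ) - 1) * x) ^ (4 * E * B) ≤ 3 ^ B := by
    have h3 : ((p : ℝ) - 1) * x ≤ 1 / (4 * E) := by
      rw [hx]
      rw [mul_one_div, div_le_div_iff₀ (by positivity) (by positivity)]
      nlinarith
    have h4 : 1 + ((p : ℝ) - 1) * x ≤ Real.exp (1 / (4 * E)) := by
      have := Real.add_one_le_exp (1 / (4 * (E : ℝ)))
      linarith
    have h0 : 0 ≤ 1 + ((p : ℝ) - 1) * x := by
      have : 0 ≤ ((p : ℝ) - 1) * x := mul_nonneg (by linarith) hx0.le
      linarith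
    calc (1 + ((p : ℝ) - 1) * x) ^ (4 * E * B) ≤ (Real.exp (1 / (4 * E))) ^ (4 * E * B) :=
          pow_le_pow_left₀ h0 h4 _
      _ = Real.exp 1 ^ B := by
          rw [pow_mul]
          congr 1
          rw [← Real.exp_nat_mul]
          congr 1
          push_cast
          field_simp
      _ ≤ 3 ^ B := by
          apply pow_le_pow_left₀ (Real.exp_pos _).le
          exact le_of_lt (lt_trans Real.exp_one_lt_d9 (by norm_num))
  have h5 : (F.card : ℝ) * x ^ (2 * t) ≤ 3 ^ B := h1.trans h2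
  have h6 : ((p : ℝ) * (4 * E)) ^ (2 * t) * x ^ (2 * t) = 1 := by
    rw [← mul_pow, hx]
    have : (p : ℝ) * (4 * E) * (1 / (4 * E * p)) = 1 := by field_simp
    rw [this, one_pow]
  calc (F.card : ℝ) = ((p : ℝ) * (4 * E)) ^ (2 * t) * (F.card * x ^ (2 * t)) := by
        calc (F.card : ℝ) = F.card * (((p : ℝ) * (4 * E)) ^ (2 * t) * x ^ (2 * t)) := by
              rw [h6, mul_one]
          _ = _ := by ring
    _ ≤ ((p : ℝ) * (4 * E)) ^ (2 * t) * 3 ^ B := by
        apply mul_le_mul_of_nonneg_left h5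
        positivity

end Pool.Agent.H29.LP
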