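import Pool.Agent.H1.LP.Targets

/-!
# Short dependencies (helper29): module SMALL of MP_c62aed_lc
-/

namespace Pool.Agent.H29.LP

open Finset Pool.Agent.H1.LP

theorem mem_supp {p B : ℕ} (l : Fin B → ZMod p) (j : Fin B) : j ∈ supp l ↔ l j ≠ 0 := by
  simp [supp]

theorem comb_add {p R B : ℕ} (A : Fin R → Fin B → ZMod p) (c c' : Fin R → ZMod p) :
    comb A (c + c') = comb A c + comb A c' := by
  funext j
  simp only [comb, Pi.add_apply, add_mul, Finset.sum_add_distrib]

theorem supp_add_card {p B : ℕ} (c c' : Fin B → ZMod p) :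
    (supp (c + c')).card ≤ (supp c).card + (supp c').card := by
  refine le_trans (Finset.card_le_card ?_) (Finset.card_union_le _ _)
  intro j hj
  rw [Finset.mem_union, mem_supp, mem_supp]
  rw [mem_supp] at hj
  by_contra hcon
  push Not at hcon
  apply hj
  rw [Pi.add_apply, hcon.1, hcon.2, add_zero]

theorem small : S_SMALL := by
  intro p B R t d _ A hA
  classical
  set Dd : Finset (Fin R → ZMod p) :=
    univ.filter (fun c => (supp c).card ≤ 2 * t ∧ comb A c = 0) with hDd
  have hmem : ∀ c, c ∈ Dd ↔ (supp c).card ≤ 2 * t ∧ comb A c = 0 := by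
    intro c; rw [hDd, Finset.mem_filter]; simp
  have hsupp0 : ∀ {N : ℕ}, (supp (0 : Fin N → ZMod p)).card = 0 := by
    intro N
    rw [Finset.card_eq_zero]
    ext j; simp [supp]
  have hshort : ∀ c ∈ Dd, (supp c).card ≤ t := by
    intro c hc
    rw [hmem] at hc
    by_contra hcon
    push Not at hcon
    have := hA c hcon hc.1
    rw [hc.2, hsupp0] at this
    omega
  have hadd : ∀ c ∈ Dd, ∀ c' ∈ Dd, c + c' ∈ Dd := by
    intro c hc c' hc'
    rw [hmem]
    constructor
    · have h1 := supp_add_card c c'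
      have h2 := hshort c hc
      have h3 := hshort c' hc'
      omega
    · rw [comb_add, ((hmem c).mp hc).2, ((hmem c').mp hc').2, add_zero]
  have hzero : (0 : Fin R → ZMod p) ∈ Dd := by
    rw [hmem]
    constructor
    · rw [hsupp0]; omega
    · funext j
      simp [comb]
  set U : Finset (Fin R) := univ.filter (fun i => ∃ c ∈ Dd, c i ≠ 0) with hU
  refine ⟨U, ?_, ?_⟩
  · -- each i ∈ U is in the support of at least half
    have h1 : ∀ i ∈ U, Dd.card ≤ 2 * (Dd.filter (fun c => c i ≠ 0)).card := by
      intro i hi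
      rw [hU, Finset.mem_filter] at hi
      obtain ⟨_, c0, hc0, hne⟩ := hi
      have h2 : (Dd.filter (fun c => ¬ (c i ≠ 0))).card ≤ (Dd.filter (fun c => c i ≠ 0)).card := by
        apply Finset.card_le_card_of_injOn (fun c => c + c0)
        · intro c hc
          simp only [Finset.coe_filter, Set.mem_ofPred_eq, not_not] at hc ⊢
          refine ⟨hadd c hc.1 c0 hc0, ?_⟩
          rw [Pi.add_apply, hc.2, zero_add]
          exact hne
        · intro c _ c' _ h
          exact add_right_cancel h
      have h3 := Finset.card_filter_add_card_filter_not (s := Dd) (fun c => c i ≠ 0)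
      omega
    have h2 : U.card * Dd.card ≤ 2 * ∑ i ∈ U, (Dd.filter (fun c => c i ≠ 0)).card := by
      rw [Finset.mul_sum, ← smul_eq_mul, ← Finset.sum_const]
      exact Finset.sum_le_sum h1
    have h3 : ∑ i ∈ U, (Dd.filter (fun c => c i ≠ 0)).card ≤ ∑ c ∈ Dd, (supp c).card := by
      simp_rw [Finset.card_filter]
      rw [Finset.sum_comm]
      apply Finset.sum_le_sum
      intro c _
      rw [← Finset.card_filter]
      apply Finset.card_le_card
      intro i hi
      rw [Finset.mem_filter] at hi
      rw [mem_supp]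
      exact hi.2
    have h4 : ∑ c ∈ Dd, (supp c).card ≤ t * Dd.card := by
      calc ∑ c ∈ Dd, (supp c).card ≤ ∑ _c ∈ Dd, t := Finset.sum_le_sum hshort
        _ = t * Dd.card := by rw [Finset.sum_const, smul_eq_mul, mul_comm]
    have h5 : 0 < Dd.card := Finset.card_pos.mpr ⟨0, hzero⟩
    have h6 : U.card * Dd.card ≤ (2 * t) * Dd.card := by
      calc U.card * Dd.card ≤ 2 * ∑ i ∈ U, (Dd.filter (fun c => c i ≠ 0)).card := h2
        _ ≤ 2 * (t * Dd.card) := Nat.mul_le_mul_left _ (h3.trans h4)
        _ = _ := by ring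
    exact Nat.le_of_mul_le_mul_right h6 h5
  · intro c hc1 hc2 i hi
    rw [mem_supp] at hi
    rw [hU, Finset.mem_filter]
    exact ⟨Finset.mem_univ _, c, (hmem c).mpr ⟨hc1, hc2⟩, hi⟩

end Pool.Agent.H29.LP
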